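import Pool.Agent.NL.StmtsA

set_option autoImplicit false

open MeasureTheory Filter Topology

noncomputable section

namespace Pool.Agent.NL.H53

variable {Y : Type} [NormedAddCommGroup Y] [NormedSpace ℝ Y]

theorem norm_avg_le (s : Finset ℕ) (w : ℕ → ℝ) (x : ℕ → Y) (M : ℝ) (hw : ∀ i ∈ s, 0 ≤ w i)
    (hs : ∑ i ∈ s, w i = 1) (hx : ∀ i ∈ s, ‖x i‖ ≤ M) : ‖∑ i ∈ s, w i • x i‖ ≤ M := by
  refine (norm_sum_le _ _).trans ?_
  have h : ∑ i ∈ s, ‖w i • x i‖ ≤ ∑ i ∈ s, w i * M := by
    apply Finset.sum_le_sum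
    intro i hi
    rw [norm_smul, Real.norm_eq_abs, abs_of_nonneg (hw i hi)]
    exact mul_le_mul_of_nonneg_left (hx i hi) (hw i hi)
  rw [← Finset.sum_mul, hs, one_mul] at h
  exact h

theorem avg_const (s : Finset ℕ) (w : ℕ → ℝ) (b : Y) (x : ℕ → Y)
    (hs : ∑ i ∈ s, w i = 1) : ∑ i ∈ s, w i • (b + x i) = b + ∑ i ∈ s, w i • x i := by
  have : ∑ i ∈ s, w i • (b + x i) = ∑ i ∈ s, (w i • b + w i • x i) :=
    Finset.sum_congr rfl fun i _ => smul_add _ _ _
  rw [this, Finset.sum_add_distrib, ← Finset.sum_smul, hs, one_smul]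

/-- ALS -/
theorem als : AlsStmt := by
  intro Y _ _ B v N ϖ g h a ε η h2 hpos hsum ha ha1 hη hη1 hε hεη H
  have hεη2 : ε ≤ η / 40 := by
    refine hεη.trans ?_
    have : a * η ≤ 1 * η := mul_le_mul_of_nonneg_right ha1 hη.le
    linarith
  have hε40 : ε ≤ 1 / 40 := by linarith
  set ℓ : ℕ → Y := fun i => (1 - a / 16) • g i + (a / 16) • h i with hℓ
  have dif : ∀ i, i < N → ‖ℓ i - g i‖ ≤ a / 8 := by
    intro i hi
    have e : ℓ i - g i = (a / 16) • (h i - g i) := by
      simp only [hℓ]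
      module
    rw [e, norm_smul, Real.norm_eq_abs, abs_of_nonneg (by linarith)]
    have h1 := norm_sub_le (h i) (g i)
    have h3 := H.g1 i hi
    have h4 := H.h1 i hi
    nlinarith
  have dif2 : ∀ c : ℕ → ℝ, ‖∑ i ∈ Finset.range N, c i • ℓ i - ∑ i ∈ Finset.range N, c i • g i‖ ≤
      a / 8 * ∑ i ∈ Finset.range N, |c i| := by
    intro c
    rw [← Finset.sum_sub_distrib, Finset.mul_sum]
    refine (norm_sum_le _ _).trans (Finset.sum_le_sum ?_)
    intro i hi
    rw [← smul_sub, norm_smul, Real.norm_eq_abs, mul_comm]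
    exact mul_le_mul_of_nonneg_right (dif i (Finset.mem_range.1 hi)) (abs_nonneg _)
  have low : ∀ b ∈ B, ∀ c : ℕ → ℝ, a / 2 * ∑ i ∈ Finset.range N, |c i| ≤
      ‖b + ∑ i ∈ Finset.range N, c i • g i‖ := by
    intro b hb c
    have := H.low b hb 0 c
    rwa [abs_zero, zero_add, zero_smul, add_zero] at this
  have cmp1 : ∀ b ∈ B, ∀ c : ℕ → ℝ, ‖b + ∑ i ∈ Finset.range N, c i • ℓ i‖ ≤
      5 / 4 * ‖b + ∑ i ∈ Finset.range N, c i • g i‖ := by
    intro b hb c
    have h1 := low b hb c
    have h3 := dif2 c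
    have h4 : ‖b + ∑ i ∈ Finset.range N, c i • ℓ i‖ ≤ ‖b + ∑ i ∈ Finset.range N, c i • g i‖ +
        ‖∑ i ∈ Finset.range N, c i • ℓ i - ∑ i ∈ Finset.range N, c i • g i‖ := by
      refine le_trans (le_of_eq ?_) (norm_add_le _ _)
      congr 1
      abel
    linarith
  have cmp2 : ∀ b ∈ B, ∀ c : ℕ → ℝ, ‖b + ∑ i ∈ Finset.range N, c i • g i‖ ≤
      4 / 3 * ‖b + ∑ i ∈ Finset.range N, c i • ℓ i‖ := by
    intro b hb c
    have h1 := low b hb c
    have h3 := dif2 c
    have h4 : ‖b + ∑ i ∈ Finset.range N, c i • g i‖ ≤ ‖b + ∑ i ∈ Finset.range N, c i • ℓ i‖ +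
        ‖∑ i ∈ Finset.range N, c i • ℓ i - ∑ i ∈ Finset.range N, c i • g i‖ := by
      have h5 := norm_sub_le (b + ∑ i ∈ Finset.range N, c i • ℓ i)
        (∑ i ∈ Finset.range N, c i • ℓ i - ∑ i ∈ Finset.range N, c i • g i)
      refine le_trans (le_of_eq ?_) h5
      congr 1
      abel
    linarith
  have hc0 : ∀ c : ℕ → ℝ, 0 ≤ ∑ i ∈ Finset.range N, |c i| := fun c =>
    Finset.sum_nonneg fun i _ => abs_nonneg _
  refine ⟨?_, ?_, ?_, ?_⟩
  · intro b hb A
    have e : b + A • ∑ i ∈ Finset.range N, ϖ i • ℓ i =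
        ∑ i ∈ Finset.range N, ϖ i • (b + A • ℓ i) := by
      rw [avg_const _ _ _ _ hsum, Finset.smul_sum]
      congr 1
      apply Finset.sum_congr rfl
      intro i _
      rw [smul_comm]
    rw [e]
    apply norm_avg_le _ _ _ _ (fun i hi => (hpos i (Finset.mem_range.1 hi)).le) hsum
    intro i hi
    refine (H.up1 b hb A i (Finset.mem_range.1 hi)).trans ?_
    apply mul_le_mul_of_nonneg_right _ (norm_nonneg _)
    linarith
  · intro b hb c
    have h1 := H.lo1 b hb c
    have h3 := low b hb c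
    have h4 := cmp2 b hb c
    have h0 := hc0 c
    set S := ‖b + ∑ i ∈ Finset.range N, c i • ℓ i‖ with hS
    set D := ∑ i ∈ Finset.range N, |c i| with hD
    have hS0 : 0 ≤ S := norm_nonneg _
    have h1' : ‖b + (∑ i ∈ Finset.range N, c i) • v‖ ≤ (1 + ε) * (S + ε * D) := h1
    have h5 : a * D ≤ 8 / 3 * S := by linarith
    have h6 : ε * D ≤ η / 15 * S := by
      have h7 : ε * D ≤ (a * η / 40) * D := mul_le_mul_of_nonneg_right hεη h0
      have h8 : (a * η / 40) * D = η / 40 * (a * D) := by ring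
      have h9 : η / 40 * (a * D) ≤ η / 40 * (8 / 3 * S) :=
        mul_le_mul_of_nonneg_left h5 (by linarith)
      linarith
    refine h1'.trans ?_
    have h7 : (1 + ε) * (S + ε * D) ≤ (1 + η / 40) * (S + η / 15 * S) := by
      apply mul_le_mul
      · linarith
      · linarith
      · positivity
      · linarith
    refine h7.trans ?_
    have h8 : (1 + η / 40) * (S + η / 15 * S) = (1 + η / 40) * (1 + η / 15) * S := by ring
    rw [h8]
    apply mul_le_mul_of_nonneg_right _ hS0
    nlinarith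
  · intro b hb c k hk
    set P := ∑ i ∈ Finset.Ico k N, ϖ i with hPdef
    set α := ∑ i ∈ Finset.Ico k N, c i with hαdef
    have hP : 0 < P := by
      apply Finset.sum_pos
      · intro i hi
        rw [Finset.mem_Ico] at hi
        exact hpos i hi.2
      · exact ⟨k, by rw [Finset.mem_Ico]; omega⟩
    set c2 : ℕ → ℝ := fun i => if i < k then c i else α / P * ϖ i with hc2
    have e1 : ∀ x : ℕ → Y, ∑ i ∈ Finset.range N, c2 i • x i =
        ∑ i ∈ Finset.range k, c i • x i + (α / P) • ∑ i ∈ Finset.Ico k N, ϖ i • x i := by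
      intro x
      rw [← Finset.sum_range_add_sum_Ico _ hk.le]
      congr 1
      · apply Finset.sum_congr rfl
        intro i hi
        simp only [hc2]
        rw [if_pos (Finset.mem_range.1 hi)]
      · rw [Finset.smul_sum]
        apply Finset.sum_congr rfl
        intro i hi
        rw [Finset.mem_Ico] at hi
        simp only [hc2]
        rw [if_neg (not_lt.2 hi.1), smul_smul]
    have e2 : b + ∑ i ∈ Finset.range k, c i • ℓ i + (α / P) • ∑ i ∈ Finset.Ico k N, ϖ i • ℓ i =
        b + ∑ i ∈ Finset.range N, c2 i • ℓ i := by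
      rw [e1, add_assoc]
    have hw : ∑ i ∈ Finset.Ico k N, ϖ i / P = 1 := by
      rw [← Finset.sum_div, div_self hP.ne']
    have e3 : b + ∑ i ∈ Finset.range N, c2 i • g i =
        ∑ i ∈ Finset.Ico k N, (ϖ i / P) • (b + ∑ j ∈ Finset.range k, c j • g j + α • g i) := by
      rw [avg_const _ _ _ _ hw, e1, add_assoc, Finset.smul_sum]
      congr 2
      apply Finset.sum_congr rfl
      intro i _
      rw [smul_smul, smul_smul]
      congr 1
      ring
    have h1 : ‖b + ∑ i ∈ Finset.range N, c2 i • g i‖ ≤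
        (1 + ε) * ‖b + ∑ j ∈ Finset.range k, c j • g j + α • v‖ := by
      rw [e3]
      apply norm_avg_le _ _ _ _ _ hw
      · intro i hi
        rw [Finset.mem_Ico] at hi
        exact H.sup b hb c k i α hi.1 hi.2
      · intro i hi
        rw [Finset.mem_Ico] at hi
        exact div_nonneg (hpos i hi.2).le hP.le
    have h3 := H.slo b hb c k hk
    have h4 := cmp1 b hb c2
    have h5 := cmp2 b hb c
    have h6 := low b hb c
    have h0 := hc0 c
    rw [e2]
    set S := ‖b + ∑ i ∈ Finset.range N, c i • ℓ i‖ with hS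
    set Sg := ‖b + ∑ i ∈ Finset.range N, c i • g i‖ with hSg
    set D := ∑ i ∈ Finset.range N, |c i| with hD
    set R := ‖b + ∑ j ∈ Finset.range k, c j • g j + α • v‖ with hR
    have hS0 : 0 ≤ S := norm_nonneg _
    have hSg0 : 0 ≤ Sg := norm_nonneg _
    have hR0 : 0 ≤ R := norm_nonneg _
    have h7 : ε * D ≤ 1 / 20 * Sg := by
      have h7 : ε * D ≤ (a * η / 40) * D := mul_le_mul_of_nonneg_right hεη h0
      have h8 : (a * η / 40) * D = η / 20 * (a / 2 * D) := by ring
      have h9 : η / 20 * (a / 2 * D) ≤ η / 20 * Sg :=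
        mul_le_mul_of_nonneg_left h6 (by linarith)
      have h10 : η / 20 * Sg ≤ 1 / 20 * Sg := mul_le_mul_of_nonneg_right (by linarith) hSg0
      linarith
    have h8 : R ≤ 41 / 40 * (21 / 20 * Sg) := by
      refine h3.trans ?_
      apply mul_le_mul
      · linarith
      · linarith
      · positivity
      · norm_num
    have h9 : (1 + ε) * R ≤ 41 / 40 * (41 / 40 * (21 / 20 * Sg)) := by
      apply mul_le_mul
      · linarith
      · exact h8
      · exact hR0
      · norm_num
    linarith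
  · intro c hc i hi
    have h1 := low 0 B.zero_mem c
    have h3 := cmp2 0 B.zero_mem c
    have hc' : ∑ i ∈ Finset.range N, c i • ℓ i = 0 := hc
    rw [hc', add_zero, norm_zero, mul_zero] at h3
    have h4 : ∑ i ∈ Finset.range N, |c i| ≤ 0 := by
      by_contra hcon
      rw [not_le] at hcon
      have : 0 < a / 2 * ∑ i ∈ Finset.range N, |c i| := mul_pos (by linarith) hcon
      linarith
    have h5 : |c i| ≤ ∑ i ∈ Finset.range N, |c i| :=
      Finset.single_le_sum (f := fun i => |c i|) (fun i _ => abs_nonneg _)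
        (Finset.mem_range.2 hi)
    exact abs_eq_zero.1 (le_antisymm (h5.trans h4) (abs_nonneg _))

end Pool.Agent.NL.H53
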