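import Pool.Agent.NL.StmtsA

set_option autoImplicit false

open MeasureTheory Filter Topology

noncomputable section

namespace Pool.Agent.NL.H53

theorem ci_lt {N j : ℕ} (hj : j < N) : ci N j < N := by
  unfold ci
  split_ifs <;> omega

theorem sum_ci {M : Type*} [AddCommMonoid M] (f : ℕ → M) (N : ℕ) (hN : 1 ≤ N) :
    ∑ j ∈ Finset.range N, f (ci N j) = ∑ i ∈ Finset.range N, f i := by
  obtain ⟨k, rfl⟩ : ∃ k, N = k + 1 := ⟨N - 1, by omega⟩
  rw [Finset.sum_range_succ', Finset.sum_range_succ]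
  congr 1

/-- the inverse of `ci` -/
def cj (N i : ℕ) : ℕ := if i = N - 1 then 0 else i + 1

theorem cj_ci {N j : ℕ} (hj : j < N) : cj N (ci N j) = j := by
  unfold cj ci
  split_ifs <;> omega

theorem iter_zero (m : ℕ) (k : ℕ) :
    (fun i => if i < m then i else (0 : ℕ))^[k] 0 = 0 := by
  induction k with
  | zero => rfl
  | succ k ih =>
    rw [Function.iterate_succ_apply]
    have : (if 0 < m then 0 else (0 : ℕ)) = 0 := by split_ifs <;> rfl
    rw [this]
    exact ih

theorem anc_star (m i : ℕ) (hm : 1 ≤ m) :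
    NE.anc (fun _ => 0) m i = if i < m then i else 0 := by
  unfold NE.anc
  by_cases hi : i < m
  · rw [if_pos hi]
    have hfix : (fun i => if i < m then i else (0 : ℕ)) i = i := by simp [hi]
    exact Function.iterate_fixed hfix i
  · rw [if_neg hi]
    obtain ⟨k, rfl⟩ : ∃ k, i = k + 1 := ⟨i - 1, by omega⟩
    rw [Function.iterate_succ_apply, if_neg hi]
    exact iter_zero m k

theorem anc_ci {N m i : ℕ} (hm : 1 ≤ m) (hmN : m < N) (hi : i < N) :
    NE.anc (fun _ => 0) m i = if ci N i < m - 1 then ci N i + 1 else 0 := by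
  rw [anc_star m i hm]
  unfold ci
  split_ifs <;> omega

theorem cls_lo {N m : ℕ} (hm : 1 ≤ m) (hmN : m < N) (c : ℕ → ℝ) {j : ℕ} (hj : j < N)
    (h : ci N j < m - 1) :
    NE.cls N (fun _ => 0) m (fun j => c (ci N j)) j = c (ci N j) := by
  unfold NE.cls
  have e1 : ∑ i ∈ Finset.range N with NE.anc (fun _ => 0) m i = NE.anc (fun _ => 0) m j,
      c (ci N i) = ∑ i ∈ Finset.range N, if ci N i = ci N j then c (ci N i) else 0 := by
    rw [Finset.sum_filter]
    apply Finset.sum_congr rfl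
    intro i hi
    rw [Finset.mem_range] at hi
    rw [anc_ci hm hmN hi, anc_ci hm hmN hj, if_pos h]
    by_cases h1 : ci N i = ci N j
    · rw [if_pos h1, h1, if_pos h, if_pos rfl]
    · by_cases h2 : ci N i < m - 1
      · rw [if_pos h2, if_neg (by omega : ¬ (ci N i + 1 = ci N j + 1)), if_neg h1]
      · rw [if_neg h2, if_neg (by omega : ¬ (0 = ci N j + 1)), if_neg h1]
  rw [e1, sum_ci (fun x => if x = ci N j then c x else 0) N (by omega),
    Finset.sum_ite_eq', if_pos (Finset.mem_range.2 (ci_lt hj))]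

theorem cls_hi {N m : ℕ} (hm : 1 ≤ m) (hmN : m < N) (c : ℕ → ℝ) {j : ℕ} (hj : j < N)
    (h : m - 1 ≤ ci N j) :
    NE.cls N (fun _ => 0) m (fun j => c (ci N j)) j = ∑ i ∈ Finset.Ico (m - 1) N, c i := by
  unfold NE.cls
  have e1 : ∑ i ∈ Finset.range N with NE.anc (fun _ => 0) m i = NE.anc (fun _ => 0) m j,
      c (ci N i) = ∑ i ∈ Finset.range N, if m - 1 ≤ ci N i then c (ci N i) else 0 := by
    rw [Finset.sum_filter]
    apply Finset.sum_congr rfl
    intro i hi
    rw [Finset.mem_range] at hi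
    rw [anc_ci hm hmN hi, anc_ci hm hmN hj, if_neg (not_lt.2 h)]
    by_cases h1 : m - 1 ≤ ci N i
    · rw [if_pos h1, if_neg (not_lt.2 h1), if_pos rfl]
    · rw [if_neg h1, if_pos (not_le.1 h1), if_neg (by omega)]
  rw [e1, sum_ci (fun x => if m - 1 ≤ x then c x else 0) N (by omega), ← Finset.sum_filter]
  apply Finset.sum_congr _ (fun _ _ => rfl)
  ext x
  rw [Finset.mem_filter, Finset.mem_range, Finset.mem_Ico]
  tauto

/-- STR -/
theorem str : StrStmt := by
  intro Y _ _ B v N ϖ ℓ η C h2 hpos hsum H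
  have h1 : 1 ≤ N := by omega
  have tr : ∀ a : ℕ → ℝ, ∑ j ∈ Finset.range N, a j • ℓ (ci N j) =
      ∑ i ∈ Finset.range N, a (cj N i) • ℓ i := by
    intro a
    rw [← sum_ci (fun i => a (cj N i) • ℓ i) N h1]
    apply Finset.sum_congr rfl
    intro j hj
    rw [cj_ci (Finset.mem_range.1 hj)]
  have tr1 : ∀ a : ℕ → ℝ, ∑ j ∈ Finset.range N, a j = ∑ i ∈ Finset.range N, a (cj N i) := by
    intro a
    rw [← sum_ci (fun i => a (cj N i)) N h1]
    apply Finset.sum_congr rfl
    intro j hj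
    rw [cj_ci (Finset.mem_range.1 hj)]
  refine ⟨⟨h2, fun j hj => hpos _ (ci_lt hj), ?_, fun m hm _ => hm, ?_, ?_, ?_, ?_⟩,
    fun f => sum_ci f N h1⟩
  · rw [sum_ci ϖ N h1]
    exact hsum
  · intro b hb A
    rw [sum_ci (fun i => ϖ i • ℓ i) N h1]
    exact H.up b hb A
  · intro b hb a
    rw [tr, tr1]
    exact H.lo b hb fun i => a (cj N i)
  · intro b hb a m hm hmN
    set c : ℕ → ℝ := fun i => a (cj N i) with hc
    have hac : ∀ j, j < N → a j = c (ci N j) := by
      intro j hj
      simp only [hc]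
      rw [cj_ci hj]
    have hcls : ∀ j, NE.cls N (fun _ => 0) m a j =
        NE.cls N (fun _ => 0) m (fun j => c (ci N j)) j := by
      intro j
      unfold NE.cls
      apply Finset.sum_congr rfl
      intro i hi
      rw [Finset.mem_filter, Finset.mem_range] at hi
      exact hac i hi.1
    have hP : 0 < ∑ i ∈ Finset.Ico (m - 1) N, ϖ i := by
      apply Finset.sum_pos
      · intro i hi
        rw [Finset.mem_Ico] at hi
        exact hpos i hi.2
      · exact ⟨N - 1, by rw [Finset.mem_Ico]; omega⟩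
    have key := H.inn b hb c (m - 1) (by omega)
    have e1 : ∑ j ∈ Finset.range N, NE.Qs N (fun j => ϖ (ci N j)) (fun _ => 0) m a j •
        ℓ (ci N j) = ∑ i ∈ Finset.range N, (if i < m - 1 then c i else
          ϖ i / (∑ i ∈ Finset.Ico (m - 1) N, ϖ i) * ∑ i ∈ Finset.Ico (m - 1) N, c i) • ℓ i := by
      rw [← sum_ci (fun i => (if i < m - 1 then c i else
          ϖ i / (∑ i ∈ Finset.Ico (m - 1) N, ϖ i) * ∑ i ∈ Finset.Ico (m - 1) N, c i) • ℓ i)
          N h1]
      apply Finset.sum_congr rfl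
      intro j hj
      rw [Finset.mem_range] at hj
      congr 1
      unfold NE.Qs
      rw [hcls j]
      by_cases h : ci N j < m - 1
      · rw [if_pos h, cls_lo hm hmN _ hj h, cls_lo hm hmN _ hj h,
          div_self (hpos _ (ci_lt hj)).ne', one_mul]
      · rw [if_neg h, cls_hi hm hmN _ hj (not_lt.1 h), cls_hi hm hmN _ hj (not_lt.1 h)]
    have e2 : ∑ i ∈ Finset.range N, (if i < m - 1 then c i else
          ϖ i / (∑ i ∈ Finset.Ico (m - 1) N, ϖ i) * ∑ i ∈ Finset.Ico (m - 1) N, c i) • ℓ i =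
        ∑ i ∈ Finset.range (m - 1), c i • ℓ i +
          ((∑ i ∈ Finset.Ico (m - 1) N, c i) / ∑ i ∈ Finset.Ico (m - 1) N, ϖ i) •
            ∑ i ∈ Finset.Ico (m - 1) N, ϖ i • ℓ i := by
      rw [← Finset.sum_range_add_sum_Ico _ (show m - 1 ≤ N by omega)]
      congr 1
      · apply Finset.sum_congr rfl
        intro i hi
        rw [if_pos (Finset.mem_range.1 hi)]
      · rw [Finset.smul_sum]
        apply Finset.sum_congr rfl
        intro i hi
        rw [Finset.mem_Ico] at hi
        rw [if_neg (not_lt.2 hi.1), smul_smul]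
        congr 1
        ring
    rw [e1, e2, tr a, ← add_assoc]
    exact key
  · intro a _ h0 j hj
    rw [tr] at h0
    have := H.nz (fun i => a (cj N i)) h0 (ci N j) (ci_lt hj)
    rwa [cj_ci hj] at this

end Pool.Agent.NL.H53
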