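import Pool.Agent.Helper53_NL.STR
import Pool.Agent.Helper53_NL.ALS

set_option autoImplicit false

open MeasureTheory Filter Topology

noncomputable section

namespace Pool.Agent.NL.H53

theorem V_mapDomain_le (G : ℝ → Z) (hG : ∀ w, ‖G w‖ ≤ 1) (q : ℝ →₀ ℝ) (hq : Pb q)
    (f : ℝ → ℝ) : ‖V G (Finsupp.mapDomain f q)‖ ≤ 1 := by
  unfold V
  rw [Finsupp.linearCombination_mapDomain, Finsupp.linearCombination_apply, Finsupp.sum]
  refine (norm_sum_le _ _).trans ?_
  have h : ∑ i ∈ q.support, ‖q i • (G ∘ f) i‖ ≤ ∑ i ∈ q.support, q i := by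
    apply Finset.sum_le_sum
    intro i _
    rw [norm_smul, Real.norm_eq_abs, abs_of_nonneg (hq.1 i)]
    exact mul_le_of_le_one_right (hq.1 i) (hG _)
  refine h.trans (le_of_eq ?_)
  exact hq.2

/-- AST -/
theorem ast (hB : BsrStmt) (hakb : AkbStmt) (haup : AupStmt) (halo : AloStmt)
    (hasl : AslStmt) (hasu : AsuStmt) (hare : AreStmt) : AstStmt := by
  intro X _ _ f F G Ψ a ε n u q W Q N ϖ J φ T y η hS ha1 hη hη1 hε
  have ha := hS.a0
  have he := hS.e0
  have hX : 0 ≤ 4 * (n : ℝ) / a := by positivity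
  have hε0 : 2 * ε ≤ a * η / 40 := by
    refine le_trans ?_ hε
    nlinarith
  have hε2 : ε ≤ a * η / 40 := by linarith
  have haη : a * η ≤ 1 * η := mul_le_mul_of_nonneg_right ha1 hη.le
  have hε3 : ε * (1 + 4 * n / a) ≤ a * η / 40 := by
    have : 0 ≤ ε * (1 + 4 * n / a) := by positivity
    linarith
  have h4 : 4 * ε ≤ η := by linarith
  have hτ0 : 0 ≤ a / 16 := by linarith
  have hτ1 : a / 16 ≤ 1 := by linarith
  have hpq : Pb (q u) := hS.cfg.pb u hS.hu
  have hVl : ∀ i, V G (lam (q u) J φ (a / 16) i) =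
      (1 - a / 16) • V G (gq (q u) φ i) + (a / 16) • V G (hq (q u) J φ i) := by
    intro i
    unfold lam
    rw [map_add, map_smul, map_smul]
  have key : AlH (NE.Bs Ψ (fun i => V G (q i)) n u Q) (V G (q u)) N
      (fun i => V G (gq (q u) φ i)) (fun i => V G (hq (q u) J φ i)) a (a / 16)
      (a * η / 40) := by
    refine ⟨?_, ?_, ?_, ?_, ?_, ?_, ?_⟩
    · intro i _
      exact V_mapDomain_le G hS.crv.bdd (q u) hpq _
    · intro i _
      exact V_mapDomain_le G hS.crv.bdd (q u) hpq _
    · intro b hb α c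
      obtain ⟨c1, z, hz, rfl⟩ := hB X G Ψ n u q Q b hb
      have h := (hakb X f F G Ψ a ε n u q W _ N ϖ J φ T y hS c1 c α z).1
      refine h.trans (le_of_eq ?_)
      congr 1
      rw [map_add, map_add, map_smul, map_sum]
      simp only [map_smul]
      abel
    · intro b hb A i hi
      obtain ⟨c1, z, hz, rfl⟩ := hB X G Ψ n u q Q b hb
      have h := haup X f F G Ψ a ε n u q W _ N ϖ J φ T y hS (a / 16) hτ0 hτ1 c1 A i hi z hz
      have e1 : V G (bo n u c1 q) - Ψ z + A • ((1 - a / 16) • V G (gq (q u) φ i) +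
          (a / 16) • V G (hq (q u) J φ i)) =
          V G (bo n u c1 q + A • lam (q u) J φ (a / 16) i) - Ψ z := by
        rw [map_add, map_smul, hVl]
        abel
      have e2 : V G (bo n u c1 q) - Ψ z + A • V G (q u) =
          V G (bo n u c1 q + A • q u) - Ψ z := by
        rw [map_add, map_smul]
        abel
      show ‖V G (bo n u c1 q) - Ψ z + A • ((1 - a / 16) • V G (gq (q u) φ i) +
          (a / 16) • V G (hq (q u) J φ i))‖ ≤ _
      rw [e1, e2]
      refine h.trans (mul_le_mul_of_nonneg_right ?_ (norm_nonneg _))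
      linarith
    · intro b hb c
      obtain ⟨c1, z, hz, rfl⟩ := hB X G Ψ n u q Q b hb
      have h := halo X f F G Ψ a ε n u q W _ N ϖ J φ T y hS (a / 16) hτ0 hτ1 c1 c z hz
      have e1 : V G (bo n u c1 q) - Ψ z + ∑ i ∈ Finset.range N,
          c i • ((1 - a / 16) • V G (gq (q u) φ i) + (a / 16) • V G (hq (q u) J φ i)) =
          V G (bo n u c1 q + ∑ i ∈ Finset.range N, c i • lam (q u) J φ (a / 16) i) - Ψ z := by
        rw [map_add, map_sum]
        simp only [map_smul, hVl]
        abel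
      have e2 : V G (bo n u c1 q) - Ψ z + (∑ i ∈ Finset.range N, c i) • V G (q u) =
          V G (bo n u c1 q + (∑ i ∈ Finset.range N, c i) • q u) - Ψ z := by
        rw [map_add, map_smul]
        abel
      show _ ≤ (1 + a * η / 40) * (‖V G (bo n u c1 q) - Ψ z + ∑ i ∈ Finset.range N,
          c i • ((1 - a / 16) • V G (gq (q u) φ i) + (a / 16) • V G (hq (q u) J φ i))‖ +
            a * η / 40 * ∑ i ∈ Finset.range N, |c i|)
      rw [e1, e2]
      refine h.trans ?_
      have h0 : 0 ≤ ∑ i ∈ Finset.range N, |c i| := Finset.sum_nonneg fun i _ => abs_nonneg _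
      apply mul_le_mul (by linarith) _ (by positivity) (by positivity)
      have := mul_le_mul_of_nonneg_right hε2 h0
      linarith
    · intro b hb c k hk
      obtain ⟨c1, z, hz, rfl⟩ := hB X G Ψ n u q Q b hb
      have h := hasl X f F G Ψ a ε n u q W _ N ϖ J φ T y hS c1 c k hk z hz
      have e1 : V G (bo n u c1 q) - Ψ z + ∑ i ∈ Finset.range N, c i • V G (gq (q u) φ i) =
          V G (bo n u c1 q + ∑ i ∈ Finset.range N, c i • gq (q u) φ i) - Ψ z := by
        rw [map_add, map_sum]
        simp only [map_smul]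
        abel
      have e2 : V G (bo n u c1 q) - Ψ z + ∑ i ∈ Finset.range k, c i • V G (gq (q u) φ i) +
          (∑ i ∈ Finset.Ico k N, c i) • V G (q u) =
          V G (bo n u c1 q + ∑ i ∈ Finset.range k, c i • gq (q u) φ i +
            (∑ i ∈ Finset.Ico k N, c i) • q u) - Ψ z := by
        rw [map_add, map_add, map_smul, map_sum]
        simp only [map_smul]
        abel
      show ‖V G (bo n u c1 q) - Ψ z + ∑ i ∈ Finset.range k, c i • V G (gq (q u) φ i) +
          (∑ i ∈ Finset.Ico k N, c i) • V G (q u)‖ ≤ (1 + a * η / 40) *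
          (‖V G (bo n u c1 q) - Ψ z + ∑ i ∈ Finset.range N, c i • V G (gq (q u) φ i)‖ +
            a * η / 40 * ∑ i ∈ Finset.range N, |c i|)
      rw [e1, e2]
      refine h.trans ?_
      have h0 : 0 ≤ ∑ i ∈ Finset.range N, |c i| := Finset.sum_nonneg fun i _ => abs_nonneg _
      apply mul_le_mul (by linarith) _ (by positivity) (by positivity)
      have := mul_le_mul_of_nonneg_right hε2 h0
      linarith
    · intro b hb c k i α hki hi
      obtain ⟨c1, z, hz, rfl⟩ := hB X G Ψ n u q Q b hb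
      have h := hasu X f F G Ψ a ε n u q W _ N ϖ J φ T y hS c1 c α k i hki hi z hz
      have e1 : V G (bo n u c1 q) - Ψ z + ∑ j ∈ Finset.range k, c j • V G (gq (q u) φ j) +
          α • V G (gq (q u) φ i) =
          V G (bo n u c1 q + ∑ j ∈ Finset.range k, c j • gq (q u) φ j +
            α • gq (q u) φ i) - Ψ z := by
        rw [map_add, map_add, map_smul, map_sum]
        simp only [map_smul]
        abel
      have e2 : V G (bo n u c1 q) - Ψ z + ∑ j ∈ Finset.range k, c j • V G (gq (q u) φ j) +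
          α • V G (q u) =
          V G (bo n u c1 q + ∑ j ∈ Finset.range k, c j • gq (q u) φ j + α • q u) - Ψ z := by
        rw [map_add, map_add, map_smul, map_sum]
        simp only [map_smul]
        abel
      show ‖V G (bo n u c1 q) - Ψ z + ∑ j ∈ Finset.range k, c j • V G (gq (q u) φ j) +
          α • V G (gq (q u) φ i)‖ ≤ (1 + a * η / 40) *
          ‖V G (bo n u c1 q) - Ψ z + ∑ j ∈ Finset.range k, c j • V G (gq (q u) φ j) +
            α • V G (q u)‖
      rw [e1, e2]
      refine h.trans (mul_le_mul_of_nonneg_right ?_ (norm_nonneg _))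
      linarith
  have hst := als Z (NE.Bs Ψ (fun i => V G (q i)) n u Q) (V G (q u)) N ϖ
    (fun i => V G (gq (q u) φ i)) (fun i => V G (hq (q u) J φ i)) a (a * η / 40) η
    hS.mv.two hS.mv.pos hS.mv.sum ha ha1 hη hη1 (by positivity) le_rfl key
  have hfun : (fun i => (1 - a / 16) • V G (gq (q u) φ i) + (a / 16) • V G (hq (q u) J φ i)) =
      fun i => V G (lam (q u) J φ (a / 16) i) := by
    funext i
    exact (hVl i).symm
  have hst' : StH (NE.Bs Ψ (fun i => V G (q i)) n u Q) (V G (q u)) N ϖ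
      (fun i => V G (lam (q u) J φ (a / 16) i)) η 2 := by
    rw [← hfun]
    exact hst
  obtain ⟨s1, s2⟩ := str Z _ _ N ϖ (fun i => V G (lam (q u) J φ (a / 16) i)) η 2
    hS.mv.two hS.mv.pos hS.mv.sum hst'
  refine ⟨s1, ?_⟩
  intro b hb A
  obtain ⟨c1, z, hz, rfl⟩ := hB X G Ψ n u q Q b hb
  have h := hare X f F G Ψ a ε n u q W _ N ϖ J φ T y hS (a / 16) hτ0 hτ1 c1 A z hz
  have e0 : ∑ j ∈ Finset.range N, ϖ (ci N j) • V G (lam (q u) J φ (a / 16) (ci N j)) =
      V G (∑ i ∈ Finset.range N, ϖ i • lam (q u) J φ (a / 16) i) := by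
    rw [sum_ci (fun i => ϖ i • V G (lam (q u) J φ (a / 16) i)) N
      (le_trans (by norm_num) hS.mv.two), map_sum]
    simp only [map_smul]
  have e1 : V G (bo n u c1 q) - Ψ z + A • (∑ j ∈ Finset.range N,
      ϖ (ci N j) • V G (lam (q u) J φ (a / 16) (ci N j)) -
        (a / 16) • Ψ (∑ r ∈ (q u).support, q u r • y r)) =
      V G (bo n u c1 q + A • ∑ i ∈ Finset.range N, ϖ i • lam (q u) J φ (a / 16) i) -
        Ψ (z + (A * (a / 16)) • ∑ r ∈ (q u).support, q u r • y r) := by
    rw [e0, map_add, map_smul, map_add, map_smul, smul_sub, smul_smul]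
    abel
  have e2 : V G (bo n u c1 q) - Ψ z + (A * (1 - a / 16)) • V G (q u) =
      V G (bo n u c1 q + (A * (1 - a / 16)) • q u) - Ψ z := by
    rw [map_add, map_smul]
    abel
  show ‖V G (bo n u c1 q) - Ψ z + A • (∑ j ∈ Finset.range N,
      ϖ (ci N j) • V G (lam (q u) J φ (a / 16) (ci N j)) -
        (a / 16) • Ψ (∑ r ∈ (q u).support, q u r • y r))‖ ≤ _
  rw [e1, e2]
  refine h.trans ?_
  apply add_le_add
  · apply mul_le_mul_of_nonneg_right _ (norm_nonneg _)
    linarith
  · exact mul_le_mul_of_nonneg_right h4 (abs_nonneg _)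

end Pool.Agent.NL.H53
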