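import Pool.Agent.NL.StmtsM

/-!
# NL, row DNB: the density filter is proper
-/

set_option autoImplicit false

open MeasureTheory Filter Topology Set

namespace Pool.Agent.NL.H53

theorem vol_nb (n : ℕ) (w : ℝ) : ((n : ℝ) + 1) * (volume (nb n w)).toReal = 2 := by
  have h0 : (0 : ℝ) < (n : ℝ) + 1 := by positivity
  unfold nb
  rw [Real.volume_Icc, ENNReal.toReal_ofReal]
  · field_simp
    ring
  · have h1 : (0 : ℝ) < 1 / ((n : ℝ) + 1) := by positivity
    linarith

theorem dnb : DnbStmt := by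
  refine ⟨fun w => ⟨fun h => ?_⟩, fun P hP w => ?_⟩
  · have h1 : (∅ : Set ℝ) ∈ dens w := by
      rw [h]
      exact mem_bot
    have h2 : Tendsto (fun n : ℕ => ((n : ℝ) + 1) * (volume ((∅ : Set ℝ)ᶜ ∩ nb n w)).toReal)
        atTop (𝓝 0) := h1
    have h3 : (fun n : ℕ => ((n : ℝ) + 1) * (volume ((∅ : Set ℝ)ᶜ ∩ nb n w)).toReal) =
        fun _ => 2 := by
      funext n
      rw [compl_empty, univ_inter, vol_nb]
    rw [h3] at h2
    have h4 := tendsto_nhds_unique h2 tendsto_const_nhds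
    norm_num at h4
  · change Tendsto (fun n : ℕ => ((n : ℝ) + 1) * (volume ({x | P x}ᶜ ∩ nb n w)).toReal) atTop (𝓝 0)
    have h1 : ∀ n : ℕ, volume ({x | P x}ᶜ ∩ nb n w) = 0 := by
      intro n
      refine measure_mono_null inter_subset_left ?_
      exact hP
    have h2 : (fun n : ℕ => ((n : ℝ) + 1) * (volume ({x | P x}ᶜ ∩ nb n w)).toReal) = fun _ => 0 := by
      funext n
      rw [h1, ENNReal.toReal_zero, mul_zero]
    rw [h2]
    exact tendsto_const_nhds

end Pool.Agent.NL.H53
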